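import Mathlib

set_option autoImplicit false

/-!
Seven points with `C = -(A+B)`: all differences are products of the six forms
`A, B, A+B, A-B, A+2B, 2A+B`.
-/

namespace Pool.Agent.Hep65

/-- The seven points `0, 2A², 2B², 2C², -AB, -BC, -CA` with `C = -(A+B)`. -/
def hept (A B : ℂ) : Fin 7 → ℂ :=
  ![0, 2 * A ^ 2, 2 * B ^ 2, 2 * (A + B) ^ 2, -(A * B), B * (A + B), (A + B) * A]

/-- The seven points `0, B²C², C²A², A²B², -2ABC², -2A²BC, -2AB²C` with `C = -(A+B)`. -/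
def hept' (A B : ℂ) : Fin 7 → ℂ :=
  ![0, B ^ 2 * (A + B) ^ 2, (A + B) ^ 2 * A ^ 2, A ^ 2 * B ^ 2, -(2 * A * B * (A + B) ^ 2),
    2 * A ^ 2 * B * (A + B), 2 * A * B ^ 2 * (A + B)]

/-- the six linear forms -/
def frm (A B : ℂ) : Fin 6 → ℂ :=
  ![A, B, A + B, A - B, A + 2 * B, 2 * A + B]

/-- factorisation table for `hept` -/
def tab : Fin 7 → Fin 7 → ℤ × Fin 6 × Fin 6 :=
  ![![(0, 0, 0), (-2, 0, 0), (-2, 1, 1), (-2, 2, 2), (1, 0, 1), (-1, 1, 2), (-1, 0, 2)],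
    ![(2, 0, 0), (0, 0, 0), (2, 2, 3), (-2, 1, 5), (1, 0, 5), (1, 3, 5), (1, 0, 3)],
    ![(2, 1, 1), (-2, 2, 3), (0, 0, 0), (-2, 0, 4), (1, 1, 4), (-1, 1, 3), (-1, 3, 4)],
    ![(2, 2, 2), (2, 1, 5), (2, 0, 4), (0, 0, 0), (1, 4, 5), (1, 2, 5), (1, 2, 4)],
    ![(-1, 0, 1), (-1, 0, 5), (-1, 1, 4), (-1, 4, 5), (0, 0, 0), (-1, 1, 5), (-1, 0, 4)],
    ![(1, 1, 2), (-1, 3, 5), (1, 1, 3), (-1, 2, 5), (1, 1, 5), (0, 0, 0), (-1, 2, 3)],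
    ![(1, 0, 2), (-1, 0, 3), (1, 3, 4), (-1, 2, 4), (1, 0, 4), (1, 2, 3), (0, 0, 0)]]

/-- factorisation table for `hept'` -/
def tab' : Fin 7 → Fin 7 → ℤ × Fin 6 × Fin 6 × Fin 6 × Fin 6 :=
  ![![(0, 0, 0, 0, 0), (-1, 1, 1, 2, 2), (-1, 0, 0, 2, 2), (-1, 0, 0, 1, 1), (2, 0, 1, 2, 2),
      (-2, 0, 0, 1, 2), (-2, 0, 1, 1, 2)],
    ![(1, 1, 1, 2, 2), (0, 0, 0, 0, 0), (-1, 2, 2, 2, 3), (1, 1, 1, 1, 5), (1, 1, 2, 2, 5),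
      (-1, 1, 2, 3, 5), (-1, 1, 1, 2, 3)],
    ![(1, 0, 0, 2, 2), (1, 2, 2, 2, 3), (0, 0, 0, 0, 0), (1, 0, 0, 0, 4), (1, 0, 2, 2, 4),
      (1, 0, 0, 2, 3), (1, 0, 2, 3, 4)],
    ![(1, 0, 0, 1, 1), (-1, 1, 1, 1, 5), (-1, 0, 0, 0, 4), (0, 0, 0, 0, 0), (1, 0, 1, 4, 5),
      (-1, 0, 0, 1, 5), (-1, 0, 1, 1, 4)],
    ![(-2, 0, 1, 2, 2), (-1, 1, 2, 2, 5), (-1, 0, 2, 2, 4), (-1, 0, 1, 4, 5), (0, 0, 0, 0, 0),
      (-2, 0, 1, 2, 5), (-2, 0, 1, 2, 4)],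
    ![(2, 0, 0, 1, 2), (1, 1, 2, 3, 5), (-1, 0, 0, 2, 3), (1, 0, 0, 1, 5), (2, 0, 1, 2, 5),
      (0, 0, 0, 0, 0), (2, 0, 1, 2, 3)],
    ![(2, 0, 1, 1, 2), (1, 1, 1, 2, 3), (-1, 0, 2, 3, 4), (1, 0, 1, 1, 4), (2, 0, 1, 2, 4),
      (-2, 0, 1, 2, 3), (0, 0, 0, 0, 0)]]

theorem hept_sub (A B : ℂ) (i j : Fin 7) :
    hept A B i - hept A B j = ((tab i j).1 : ℂ) * frm A B (tab i j).2.1 * frm A B (tab i j).2.2 := by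
  fin_cases i <;> fin_cases j <;> simp [hept, tab, frm] <;> ring

theorem hept'_sub (A B : ℂ) (i j : Fin 7) :
    hept' A B i - hept' A B j = ((tab' i j).1 : ℂ) * frm A B (tab' i j).2.1 *
      frm A B (tab' i j).2.2.1 * frm A B (tab' i j).2.2.2.1 * frm A B (tab' i j).2.2.2.2 := by
  fin_cases i <;> fin_cases j <;> simp [hept', tab', frm] <;>
    first | ring1 | (left; ring1) | (left; left; ring1)

theorem hept_dist_rat {A B : ℂ} (h : ∀ k : Fin 6, ∃ r : ℚ, ‖frm A B k‖ = r) (i j : Fin 7) :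
    ∃ r : ℚ, dist (hept A B i) (hept A B j) = r := by
  obtain ⟨r, hr⟩ := h (tab i j).2.1
  obtain ⟨s, hs⟩ := h (tab i j).2.2
  refine ⟨|((tab i j).1 : ℚ)| * r * s, ?_⟩
  rw [dist_eq_norm, hept_sub, norm_mul, norm_mul, hr, hs]
  push_cast
  congr 2
  rw [Complex.norm_intCast]

theorem hept'_dist_rat {A B : ℂ} (h : ∀ k : Fin 6, ∃ r : ℚ, ‖frm A B k‖ = r) (i j : Fin 7) :
    ∃ r : ℚ, dist (hept' A B i) (hept' A B j) = r := by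
  obtain ⟨r, hr⟩ := h (tab' i j).2.1
  obtain ⟨s, hs⟩ := h (tab' i j).2.2.1
  obtain ⟨t, ht⟩ := h (tab' i j).2.2.2.1
  obtain ⟨u, hu⟩ := h (tab' i j).2.2.2.2
  refine ⟨|((tab' i j).1 : ℚ)| * r * s * t * u, ?_⟩
  rw [dist_eq_norm, hept'_sub, norm_mul, norm_mul, norm_mul, norm_mul, hr, hs, ht, hu]
  push_cast
  congr 4
  rw [Complex.norm_intCast]

end Pool.Agent.Hep65
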