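import Mathlib
import Pool.Agent.Hep65.Defs
import Pool.Agent.H52R.Six

set_option autoImplicit false

namespace Pool.Agent.Hep65

open Complex

theorem six_norms (A B : ℂ) {ε : ℝ} (hε : 0 < ε) :
    ∃ A' B' : ℂ, dist A' A < ε ∧ dist B' B < ε ∧ ∀ k : Fin 6, ∃ r : ℚ, ‖frm A' B' k‖ = r := by
  set L := Complex.orthonormalBasisOneI.repr with hL
  obtain ⟨u', v', h1, h2, h3⟩ := Pool.Agent.H52R.six_dirs (L A) (L B)
    ({(1, 0), (0, 1), (1, 1), (1, -1), (1, 2), (2, 1)} : Finset (ℚ × ℚ)) (by decide)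
    (by
      intro d hd
      simp only [Finset.mem_insert, Finset.mem_singleton] at hd
      rcases hd with rfl | rfl | rfl | rfl | rfl | rfl <;> simp) hε
  have key : ∀ p q : ℝ, ‖(p : ℂ) * L.symm u' + (q : ℂ) * L.symm v'‖ = ‖p • u' + q • v'‖ := by
    intro p q
    rw [← L.norm_map ((p : ℂ) * L.symm u' + (q : ℂ) * L.symm v')]
    congr 1
    rw [← Complex.real_smul, ← Complex.real_smul, map_add, map_smul, map_smul,
      L.apply_symm_apply, L.apply_symm_apply]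
  refine ⟨L.symm u', L.symm v', ?_, ?_, ?_⟩
  · rw [dist_eq_norm, ← L.norm_map, map_sub, L.apply_symm_apply]; exact h1
  · rw [dist_eq_norm, ← L.norm_map, map_sub, L.apply_symm_apply]; exact h2
  · intro k
    fin_cases k
    · obtain ⟨r, hr⟩ := h3 (1, 0) (by simp)
      refine ⟨r, ?_⟩
      rw [← hr, ← key]; simp [frm]
    · obtain ⟨r, hr⟩ := h3 (0, 1) (by simp)
      refine ⟨r, ?_⟩
      rw [← hr, ← key]; simp [frm]
    · obtain ⟨r, hr⟩ := h3 (1, 1) (by simp)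
      refine ⟨r, ?_⟩
      rw [← hr, ← key]; simp [frm]
    · obtain ⟨r, hr⟩ := h3 (1, -1) (by simp)
      refine ⟨r, ?_⟩
      rw [← hr, ← key]; simp [frm, sub_eq_add_neg]
    · obtain ⟨r, hr⟩ := h3 (1, 2) (by simp)
      refine ⟨r, ?_⟩
      rw [← hr, ← key]; simp [frm]
    · obtain ⟨r, hr⟩ := h3 (2, 1) (by simp)
      refine ⟨r, ?_⟩
      rw [← hr, ← key]; simp [frm]

end Pool.Agent.Hep65
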