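import Mathlib
import Pool.Agent.Hep65.Defs

set_option autoImplicit false

namespace Pool.Agent.Hep65

open Complex Topology Filter

noncomputable def crs (p q : ℂ) : ℝ := p.re * q.im - p.im * q.re
noncomputable def ori (p q r : ℂ) : ℝ := crs (q - p) (r - p)
noncomputable def n2 (p : ℂ) : ℝ := p.re * p.re + p.im * p.im
noncomputable def inc (p q r s : ℂ) : ℝ :=
  n2 (p - s) * crs (q - s) (r - s) - n2 (q - s) * crs (p - s) (r - s)
    + n2 (r - s) * crs (p - s) (q - s)

theorem ori_eq_zero {p q r : ℂ} (h : Collinear ℝ ({p, q, r} : Set ℂ)) : ori p q r = 0 := by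
  rw [collinear_iff_of_mem (p₀ := p) (by simp)] at h
  obtain ⟨v, hv⟩ := h
  obtain ⟨a, ha⟩ := hv q (by simp)
  obtain ⟨b, hb⟩ := hv r (by simp)
  have ha' : q - p = (a : ℂ) * v := by
    rw [ha]; simp
  have hb' : r - p = (b : ℂ) * v := by
    rw [hb]; simp
  rw [ori, ha', hb', crs]
  simp
  ring

theorem inc_eq_zero {p q r s : ℂ}
    (h : EuclideanGeometry.Cospherical ({p, q, r, s} : Set ℂ)) : inc p q r s = 0 := by
  obtain ⟨c, R, hR⟩ := h
  have e : ∀ z ∈ ({p, q, r, s} : Set ℂ), (z.re - c.re) ^ 2 + (z.im - c.im) ^ 2 = R ^ 2 := by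
    intro z hz
    rw [← hR z hz, Complex.dist_eq, Complex.sq_norm, Complex.normSq_apply]
    simp
    ring
  have h1 := e p (by simp)
  have h2 := e q (by simp)
  have h3 := e r (by simp)
  have h4 := e s (by simp)
  have k1 : n2 (p - s) = 2 * ((p - s).re * (c - s).re + (p - s).im * (c - s).im) := by
    simp [n2]; linear_combination h1 - h4
  have k2 : n2 (q - s) = 2 * ((q - s).re * (c - s).re + (q - s).im * (c - s).im) := by
    simp [n2]; linear_combination h2 - h4
  have k3 : n2 (r - s) = 2 * ((r - s).re * (c - s).re + (r - s).im * (c - s).im) := by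
    simp [n2]; linear_combination h3 - h4
  rw [inc, k1, k2, k3, crs, crs, crs]
  ring

/-- general position: all orientation determinants and all in-circle determinants are nonzero -/
def Good (P : Fin 7 → ℂ) : Prop :=
  (∀ i j k : Fin 7, i < j → j < k → ori (P i) (P j) (P k) ≠ 0) ∧
  (∀ i j k l : Fin 7, i < j → j < k → k < l → inc (P i) (P j) (P k) (P l) ≠ 0)

theorem continuous_crs {X : Type*} [TopologicalSpace X] {f g : X → ℂ} (hf : Continuous f)
    (hg : Continuous g) : Continuous fun x => crs (f x) (g x) := by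
  unfold crs
  exact ((continuous_re.comp hf).mul (continuous_im.comp hg)).sub
    ((continuous_im.comp hf).mul (continuous_re.comp hg))

theorem continuous_n2 {X : Type*} [TopologicalSpace X] {f : X → ℂ} (hf : Continuous f) :
    Continuous fun x => n2 (f x) := by
  unfold n2
  exact ((continuous_re.comp hf).mul (continuous_re.comp hf)).add
    ((continuous_im.comp hf).mul (continuous_im.comp hf))

theorem continuous_hept (i : Fin 7) : Continuous fun p : ℂ × ℂ => hept p.1 p.2 i := by
  fin_cases i <;> simp [hept] <;> fun_prop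

theorem continuous_hept' (i : Fin 7) : Continuous fun p : ℂ × ℂ => hept' p.1 p.2 i := by
  fin_cases i <;> simp [hept'] <;> fun_prop

theorem continuous_ori {X : Type*} [TopologicalSpace X] {f g h : X → ℂ} (hf : Continuous f)
    (hg : Continuous g) (hh : Continuous h) : Continuous fun x => ori (f x) (g x) (h x) :=
  continuous_crs (hg.sub hf) (hh.sub hf)

theorem continuous_inc {X : Type*} [TopologicalSpace X] {f g h k : X → ℂ} (hf : Continuous f)
    (hg : Continuous g) (hh : Continuous h) (hk : Continuous k) :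
    Continuous fun x => inc (f x) (g x) (h x) (k x) := by
  unfold inc
  exact (((continuous_n2 (hf.sub hk)).mul (continuous_crs (hg.sub hk) (hh.sub hk))).sub
    ((continuous_n2 (hg.sub hk)).mul (continuous_crs (hf.sub hk) (hh.sub hk)))).add
    ((continuous_n2 (hh.sub hk)).mul (continuous_crs (hf.sub hk) (hg.sub hk)))

theorem good_eventually {F : ℂ → ℂ → Fin 7 → ℂ}
    (hF : ∀ i, Continuous fun p : ℂ × ℂ => F p.1 p.2 i) {A B : ℂ} (h : Good (F A B)) :
    ∀ᶠ p : ℂ × ℂ in 𝓝 (A, B), Good (F p.1 p.2) := by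
  have h1 : ∀ᶠ p : ℂ × ℂ in 𝓝 (A, B), ∀ i j k : Fin 7, i < j → j < k →
      ori (F p.1 p.2 i) (F p.1 p.2 j) (F p.1 p.2 k) ≠ 0 := by
    rw [eventually_all]; intro i
    rw [eventually_all]; intro j
    rw [eventually_all]; intro k
    by_cases hij : i < j
    · by_cases hjk : j < k
      · have := (continuous_ori (hF i) (hF j)
          (hF k)).continuousAt (x := (A, B)) |>.eventually_ne (h.1 i j k hij hjk)
        filter_upwards [this] with p hp _ _ using hp
      · exact Eventually.of_forall fun p _ h => absurd h hjk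
    · exact Eventually.of_forall fun p h => absurd h hij
  have h2 : ∀ᶠ p : ℂ × ℂ in 𝓝 (A, B), ∀ i j k l : Fin 7, i < j → j < k → k < l →
      inc (F p.1 p.2 i) (F p.1 p.2 j) (F p.1 p.2 k) (F p.1 p.2 l) ≠ 0 := by
    rw [eventually_all]; intro i
    rw [eventually_all]; intro j
    rw [eventually_all]; intro k
    rw [eventually_all]; intro l
    by_cases hij : i < j
    · by_cases hjk : j < k
      · by_cases hkl : k < l
        · have := (continuous_inc (hF i) (hF j)
            (hF k) (hF l)).continuousAt (x := (A, B))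
            |>.eventually_ne (h.2 i j k l hij hjk hkl)
          filter_upwards [this] with p hp _ _ _ using hp
        · exact Eventually.of_forall fun p _ _ h => absurd h hkl
      · exact Eventually.of_forall fun p _ h => absurd h hjk
    · exact Eventually.of_forall fun p h => absurd h hij
  filter_upwards [h1, h2] with p a b using ⟨a, b⟩

/-! ### analyticity along a segment -/

theorem an_re {f : ℝ → ℂ} (hf : AnalyticOnNhd ℝ f Set.univ) :
    AnalyticOnNhd ℝ (fun t => (f t).re) Set.univ := fun x hx =>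
  (Complex.reCLM.analyticAt _).comp (hf x hx)

theorem an_im {f : ℝ → ℂ} (hf : AnalyticOnNhd ℝ f Set.univ) :
    AnalyticOnNhd ℝ (fun t => (f t).im) Set.univ := fun x hx =>
  (Complex.imCLM.analyticAt _).comp (hf x hx)

theorem an_crs {f g : ℝ → ℂ} (hf : AnalyticOnNhd ℝ f Set.univ) (hg : AnalyticOnNhd ℝ g Set.univ) :
    AnalyticOnNhd ℝ (fun t => crs (f t) (g t)) Set.univ :=
  ((an_re hf).mul (an_im hg)).sub ((an_im hf).mul (an_re hg))

theorem an_n2 {f : ℝ → ℂ} (hf : AnalyticOnNhd ℝ f Set.univ) :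
    AnalyticOnNhd ℝ (fun t => n2 (f t)) Set.univ :=
  ((an_re hf).mul (an_re hf)).add ((an_im hf).mul (an_im hf))

theorem an_ori {f g h : ℝ → ℂ} (hf : AnalyticOnNhd ℝ f Set.univ)
    (hg : AnalyticOnNhd ℝ g Set.univ) (hh : AnalyticOnNhd ℝ h Set.univ) :
    AnalyticOnNhd ℝ (fun t => ori (f t) (g t) (h t)) Set.univ :=
  an_crs (hg.sub hf) (hh.sub hf)

theorem an_inc {f g h k : ℝ → ℂ} (hf : AnalyticOnNhd ℝ f Set.univ)
    (hg : AnalyticOnNhd ℝ g Set.univ) (hh : AnalyticOnNhd ℝ h Set.univ)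
    (hk : AnalyticOnNhd ℝ k Set.univ) :
    AnalyticOnNhd ℝ (fun t => inc (f t) (g t) (h t) (k t)) Set.univ :=
  (((an_n2 (hf.sub hk)).mul (an_crs (hg.sub hk) (hh.sub hk))).sub
    ((an_n2 (hg.sub hk)).mul (an_crs (hf.sub hk) (hh.sub hk)))).add
    ((an_n2 (hh.sub hk)).mul (an_crs (hf.sub hk) (hg.sub hk)))

theorem an_line (A A₀ : ℂ) : AnalyticOnNhd ℝ (fun t : ℝ => A + (t : ℂ) * (A₀ - A)) Set.univ :=
  fun x _ => analyticAt_const.add ((Complex.ofRealCLM.analyticAt x).mul analyticAt_const)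

theorem an_hept {a b : ℝ → ℂ} (ha : AnalyticOnNhd ℝ a Set.univ) (hb : AnalyticOnNhd ℝ b Set.univ)
    (i : Fin 7) : AnalyticOnNhd ℝ (fun t => hept (a t) (b t) i) Set.univ := by
  have c : ∀ z : ℂ, AnalyticOnNhd ℝ (fun _ : ℝ => z) Set.univ := fun z => analyticOnNhd_const
  fin_cases i
  · exact c 0
  · exact (c 2).mul (ha.pow 2)
  · exact (c 2).mul (hb.pow 2)
  · exact (c 2).mul ((ha.add hb).pow 2)
  · exact (ha.mul hb).neg
  · exact hb.mul (ha.add hb)
  · exact (ha.add hb).mul ha

theorem an_hept' {a b : ℝ → ℂ} (ha : AnalyticOnNhd ℝ a Set.univ) (hb : AnalyticOnNhd ℝ b Set.univ)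
    (i : Fin 7) : AnalyticOnNhd ℝ (fun t => hept' (a t) (b t) i) Set.univ := by
  have c : ∀ z : ℂ, AnalyticOnNhd ℝ (fun _ : ℝ => z) Set.univ := fun z => analyticOnNhd_const
  fin_cases i
  · exact c 0
  · exact (hb.pow 2).mul ((ha.add hb).pow 2)
  · exact ((ha.add hb).pow 2).mul (ha.pow 2)
  · exact (ha.pow 2).mul (hb.pow 2)
  · exact ((((c 2).mul ha).mul hb).mul ((ha.add hb).pow 2)).neg
  · exact (((c 2).mul (ha.pow 2)).mul hb).mul (ha.add hb)
  · exact (((c 2).mul ha).mul (hb.pow 2)).mul (ha.add hb)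

theorem ev_ne {f : ℝ → ℝ} (hf : AnalyticOnNhd ℝ f Set.univ) (h1 : f 1 ≠ 0) :
    ∀ᶠ t in 𝓝[≠] (0 : ℝ), f t ≠ 0 := by
  rcases (hf 0 (Set.mem_univ _)).eventually_eq_zero_or_eventually_ne_zero with h | h
  · exact absurd (hf.eqOn_zero_of_preconnected_of_eventuallyEq_zero isPreconnected_univ
      (Set.mem_univ 0) h (Set.mem_univ 1)) h1
  · exact h

/-! ### the base point `A = 1`, `B = -6 - 6 i` -/

def hz : Fin 7 → ℤ × ℤ :=
  ![(0, 0), (2, 0), (0, 144), (-22, 120), (6, 6), (-6, 66), (-5, -6)]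

def hz' : Fin 7 → ℤ × ℤ :=
  ![(0, 0), (-4320, -792), (-11, 60), (0, 72), (-852, 588), (-12, 132), (864, -720)]

def crsZ (p q : ℤ × ℤ) : ℤ := p.1 * q.2 - p.2 * q.1
def n2Z (p : ℤ × ℤ) : ℤ := p.1 * p.1 + p.2 * p.2
def oriZ (p q r : ℤ × ℤ) : ℤ := crsZ (q - p) (r - p)
def incZ (p q r s : ℤ × ℤ) : ℤ :=
  n2Z (p - s) * crsZ (q - s) (r - s) - n2Z (q - s) * crsZ (p - s) (r - s)
    + n2Z (r - s) * crsZ (p - s) (q - s)

theorem hept_base (i : Fin 7) : hept 1 (-6 - 6 * I) i = ((hz i).1 : ℂ) + ((hz i).2 : ℂ) * I := by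
  have hI : I ^ 2 = -1 := I_sq
  fin_cases i
  · simp [hept, hz]
  · simp [hept, hz]
  · simp [hept, hz]; linear_combination 72 * hI
  · simp [hept, hz]; linear_combination 72 * hI
  · simp [hept, hz]; ring
  · simp [hept, hz]; linear_combination 36 * hI
  · simp [hept, hz]; ring

theorem hept'_base (i : Fin 7) :
    hept' 1 (-6 - 6 * I) i = ((hz' i).1 : ℂ) + ((hz' i).2 : ℂ) * I := by
  have hI : I ^ 2 = -1 := I_sq
  fin_cases i
  · simp [hept', hz']
  · simp [hept', hz']; linear_combination (1296 * I ^ 2 + 4752 * I + 5220) * hI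
  · simp [hept', hz']; linear_combination 36 * hI
  · simp [hept', hz']; linear_combination 36 * hI
  · simp [hept', hz']; linear_combination (432 * I + 1152) * hI
  · simp [hept', hz']; linear_combination 72 * hI
  · simp [hept', hz']; linear_combination (- 432 * I - 1224) * hI

theorem good_of_base {P : Fin 7 → ℂ} {z : Fin 7 → ℤ × ℤ}
    (hP : ∀ i, P i = ((z i).1 : ℂ) + ((z i).2 : ℂ) * I)
    (h1 : ∀ i j k : Fin 7, i < j → j < k → oriZ (z i) (z j) (z k) ≠ 0)
    (h2 : ∀ i j k l : Fin 7, i < j → j < k → k < l → incZ (z i) (z j) (z k) (z l) ≠ 0) :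
    Good P := by
  have hre : ∀ i, (P i).re = ((z i).1 : ℝ) := fun i => by rw [hP]; simp
  have him : ∀ i, (P i).im = ((z i).2 : ℝ) := fun i => by rw [hP]; simp
  constructor
  · intro i j k hij hjk
    have e : ori (P i) (P j) (P k) = ((oriZ (z i) (z j) (z k) : ℤ) : ℝ) := by
      simp only [ori, crs, oriZ, crsZ, sub_re, sub_im, hre, him, Prod.fst_sub, Prod.snd_sub]
      push_cast
      ring
    rw [e, Int.cast_ne_zero]
    exact h1 i j k hij hjk
  · intro i j k l hij hjk hkl
    have e : inc (P i) (P j) (P k) (P l) = ((incZ (z i) (z j) (z k) (z l) : ℤ) : ℝ) := by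
      simp only [inc, n2, crs, incZ, n2Z, crsZ, sub_re, sub_im, hre, him, Prod.fst_sub,
        Prod.snd_sub]
      push_cast
      ring
    rw [e, Int.cast_ne_zero]
    exact h2 i j k l hij hjk hkl

theorem good_base : Good (hept 1 (-6 - 6 * I)) :=
  good_of_base hept_base (by decide) (by decide)

theorem good_base' : Good (hept' 1 (-6 - 6 * I)) :=
  good_of_base hept'_base (by decide) (by decide)

theorem good_near {F : ℂ → ℂ → Fin 7 → ℂ}
    (hF : ∀ {a b : ℝ → ℂ}, AnalyticOnNhd ℝ a Set.univ → AnalyticOnNhd ℝ b Set.univ →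
      ∀ i, AnalyticOnNhd ℝ (fun t => F (a t) (b t) i) Set.univ)
    {A₀ B₀ : ℂ} (h0 : Good (F A₀ B₀)) (A B : ℂ) {ε : ℝ} (hε : 0 < ε) :
    ∃ A' B' : ℂ, dist A' A < ε ∧ dist B' B < ε ∧ Good (F A' B') := by
  set a : ℝ → ℂ := fun t => A + (t : ℂ) * (A₀ - A) with ha
  set b : ℝ → ℂ := fun t => B + (t : ℂ) * (B₀ - B) with hb
  have haA := an_line A A₀
  have hbA := an_line B B₀
  have a1 : a 1 = A₀ := by simp [ha]
  have b1 : b 1 = B₀ := by simp [hb]
  have h1 : ∀ᶠ t in 𝓝[≠] (0 : ℝ), ∀ i j k : Fin 7, i < j → j < k →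
      ori (F (a t) (b t) i) (F (a t) (b t) j) (F (a t) (b t) k) ≠ 0 := by
    rw [eventually_all]; intro i
    rw [eventually_all]; intro j
    rw [eventually_all]; intro k
    by_cases hij : i < j
    · by_cases hjk : j < k
      · have := ev_ne (an_ori (hF haA hbA i) (hF haA hbA j) (hF haA hbA k))
          (by
            have := h0.1 i j k hij hjk
            rw [← a1, ← b1] at this
            exact this)
        filter_upwards [this] with t ht _ _ using ht
      · exact Eventually.of_forall fun p _ h => absurd h hjk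
    · exact Eventually.of_forall fun p h => absurd h hij
  have h2 : ∀ᶠ t in 𝓝[≠] (0 : ℝ), ∀ i j k l : Fin 7, i < j → j < k → k < l →
      inc (F (a t) (b t) i) (F (a t) (b t) j) (F (a t) (b t) k)
        (F (a t) (b t) l) ≠ 0 := by
    rw [eventually_all]; intro i
    rw [eventually_all]; intro j
    rw [eventually_all]; intro k
    rw [eventually_all]; intro l
    by_cases hij : i < j
    · by_cases hjk : j < k
      · by_cases hkl : k < l
        · have := ev_ne (an_inc (hF haA hbA i) (hF haA hbA j) (hF haA hbA k)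
            (hF haA hbA l))
            (by
              have := h0.2 i j k l hij hjk hkl
              rw [← a1, ← b1] at this
              exact this)
          filter_upwards [this] with t ht _ _ _ using ht
        · exact Eventually.of_forall fun p _ _ h => absurd h hkl
      · exact Eventually.of_forall fun p _ h => absurd h hjk
    · exact Eventually.of_forall fun p h => absurd h hij
  have h3 : ∀ᶠ t in 𝓝[≠] (0 : ℝ), dist (a t) A < ε := by
    have hc : ContinuousAt a 0 := (haA 0 (Set.mem_univ _)).continuousAt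
    have : ∀ᶠ t in 𝓝 (0 : ℝ), dist (a t) (a 0) < ε := hc.eventually (Metric.ball_mem_nhds _ hε)
    have a0 : a 0 = A := by simp [ha]
    rw [a0] at this
    exact this.filter_mono nhdsWithin_le_nhds
  have h4 : ∀ᶠ t in 𝓝[≠] (0 : ℝ), dist (b t) B < ε := by
    have hc : ContinuousAt b 0 := (hbA 0 (Set.mem_univ _)).continuousAt
    have : ∀ᶠ t in 𝓝 (0 : ℝ), dist (b t) (b 0) < ε := hc.eventually (Metric.ball_mem_nhds _ hε)
    have b0 : b 0 = B := by simp [hb]
    rw [b0] at this
    exact this.filter_mono nhdsWithin_le_nhds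
  obtain ⟨t, ht1, ht2, ht3, ht4⟩ := (h1.and (h2.and (h3.and h4))).exists
  exact ⟨a t, b t, ht3, ht4, ht1, ht2⟩

end Pool.Agent.Hep65
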