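import Mathlib
import Pool.Agent.Hep65.Defs
import Pool.Agent.Hep65.Density
import Pool.Agent.Hep65.GenPos

set_option autoImplicit false

namespace Pool.Agent.Hep65

open Complex Topology Filter

theorem family {F : ℂ → ℂ → Fin 7 → ℂ}
    (hF : ∀ {a b : ℝ → ℂ}, AnalyticOnNhd ℝ a Set.univ → AnalyticOnNhd ℝ b Set.univ →
      ∀ i, AnalyticOnNhd ℝ (fun t => F (a t) (b t) i) Set.univ)
    (hc : ∀ i, Continuous fun p : ℂ × ℂ => F p.1 p.2 i)
    (h0 : Good (F 1 (-6 - 6 * I)))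
    (hr : ∀ {A B : ℂ}, (∀ k : Fin 6, ∃ r : ℚ, ‖frm A B k‖ = r) →
      ∀ i j : Fin 7, ∃ r : ℚ, dist (F A B i) (F A B j) = r)
    (A B : ℂ) (ε : ℝ) (hε : 0 < ε) :
    ∃ A' B' : ℂ, dist A A' < ε ∧ dist B B' < ε ∧ (∀ i, dist (F A B i) (F A' B' i) < ε) ∧
      (∀ k : Fin 6, ∃ r : ℚ, ‖frm A' B' k‖ = r) ∧
      (∀ i j, ∃ r : ℚ, dist (F A' B' i) (F A' B' j) = r) ∧ Good (F A' B') := by
  -- a neighbourhood of (A, B) on which the points move by less than ε
  have hev : ∀ᶠ p : ℂ × ℂ in 𝓝 (A, B), (∀ i, dist (F A B i) (F p.1 p.2 i) < ε) ∧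
      dist A p.1 < ε ∧ dist B p.2 < ε := by
    refine Filter.Eventually.and ?_ (Filter.Eventually.and ?_ ?_)
    · rw [eventually_all]
      intro i
      have : ContinuousAt (fun p : ℂ × ℂ => dist (F A B i) (F p.1 p.2 i)) (A, B) :=
        (continuous_const.dist (hc i)).continuousAt
      exact this.eventually_lt continuousAt_const (by simpa using hε)
    · have : ContinuousAt (fun p : ℂ × ℂ => dist A p.1) (A, B) := by fun_prop
      exact this.eventually_lt continuousAt_const (by simpa using hε)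
    · have : ContinuousAt (fun p : ℂ × ℂ => dist B p.2) (A, B) := by fun_prop
      exact this.eventually_lt continuousAt_const (by simpa using hε)
  obtain ⟨δ, hδ, hball⟩ := Metric.eventually_nhds_iff.mp hev
  obtain ⟨A₁, B₁, hA₁, hB₁, hgood⟩ := good_near hF h0 A B (half_pos hδ)
  obtain ⟨η, hη, hball₁⟩ := Metric.eventually_nhds_iff.mp (good_eventually hc hgood)
  obtain ⟨A₂, B₂, hA₂, hB₂, hn⟩ := six_norms A₁ B₁ (lt_min (half_pos hδ) hη)
  rw [lt_min_iff] at hA₂ hB₂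
  have hclose : dist (A₂, B₂) (A, B) < δ := by
    rw [Prod.dist_eq, max_lt_iff]
    constructor
    · have := dist_triangle A₂ A₁ A
      simp only
      linarith [hA₂.1]
    · have := dist_triangle B₂ B₁ B
      simp only
      linarith [hB₂.1]
  obtain ⟨h1, h2, h3⟩ := hball hclose
  have hG : Good (F A₂ B₂) := by
    have : dist (A₂, B₂) (A₁, B₁) < η := by
      rw [Prod.dist_eq, max_lt_iff]
      exact ⟨hA₂.2, hB₂.2⟩
    exact hball₁ this
  exact ⟨A₂, B₂, h2, h3, h1, hn, hr hn, hG⟩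

theorem open_dense {F : ℂ → ℂ → Fin 7 → ℂ}
    (hF : ∀ {a b : ℝ → ℂ}, AnalyticOnNhd ℝ a Set.univ → AnalyticOnNhd ℝ b Set.univ →
      ∀ i, AnalyticOnNhd ℝ (fun t => F (a t) (b t) i) Set.univ)
    (hc : ∀ i, Continuous fun p : ℂ × ℂ => F p.1 p.2 i)
    (h0 : Good (F 1 (-6 - 6 * I))) :
    ∃ U : Set (ℂ × ℂ), IsOpen U ∧ Dense U ∧ ∀ p ∈ U, Good (F p.1 p.2) := by
  refine ⟨{p | Good (F p.1 p.2)}, ?_, ?_, fun p hp => hp⟩
  · rw [isOpen_iff_mem_nhds]
    rintro ⟨A, B⟩ hp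
    exact good_eventually hc hp
  · rw [Metric.dense_iff]
    rintro ⟨A, B⟩ r hr
    obtain ⟨A', B', h1, h2, h3⟩ := good_near hF h0 A B hr
    refine ⟨(A', B'), ?_, h3⟩
    rw [Metric.mem_ball, Prod.dist_eq, max_lt_iff]
    exact ⟨h1, h2⟩

end Pool.Agent.Hep65
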